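import Mathlib

set_option autoImplicit false

namespace Pool.Agent.H.MP_07add5_co
open Finset

theorem pair_count {F Ω : Type} [Field F] [Fintype F] [DecidableEq F] [AddCommGroup Ω] [Module F Ω]
    [Fintype Ω] (φ1 φ2 : Ω →ₗ[F] F) (ω1 ω2 : Ω) (h1 : φ1 ω1 ≠ 0) (h2 : φ1 ω2 = 0) (h3 : φ2 ω2 ≠ 0)
    (t c : F) :
    (univ.filter (fun ω => φ1 ω = t ∧ φ2 ω = c)).card * Fintype.card F ^ 2 ≤ Fintype.card Ω := by
  classical
  have : (univ.filter (fun ω => φ1 ω = t ∧ φ2 ω = c)).card * Fintype.card F ^ 2 =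
      ((univ.filter (fun ω => φ1 ω = t ∧ φ2 ω = c)) ×ˢ (univ : Finset (F × F))).card := by
    rw [card_product, card_univ, Fintype.card_prod, sq]
  rw [this, ← card_univ]
  apply card_le_card_of_injOn (fun z => z.1 + z.2.1 • ω1 + z.2.2 • ω2) (fun _ _ => mem_coe.mpr (mem_univ _))
  rintro ⟨ω, a, b⟩ hz ⟨ω', a', b'⟩ hz' h
  simp only [coe_product, coe_filter, mem_univ, true_and, coe_univ, Set.mem_prod, Set.mem_ofPred_eq,
    Set.mem_univ, and_true] at hz hz' h
  have e1 := congrArg φ1 h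
  simp only [map_add, map_smul, hz.1, hz'.1, h2, smul_eq_mul, mul_zero, add_zero, add_right_inj] at e1
  have ha : a = a' := mul_right_cancel₀ h1 e1
  subst ha
  have e2 := congrArg φ2 h
  simp only [map_add, map_smul, hz.2, hz'.2, smul_eq_mul, add_right_inj] at e2
  have hb : b = b' := mul_right_cancel₀ h3 e2
  subst hb
  simpa using h

section step
variable {F : Type} [Field F] [Fintype F] [DecidableEq F] {n b : ℕ}

abbrev Om (F : Type) (n : ℕ) := F × (Fin (n + 1) → F)

abbrev Lab (F : Type) (n b : ℕ) := F ⊕ (Fin (n + 1) × Fin b)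

/-- the new element with label `l` -/
def el (X : Fin (n + 1) → Fin b → F) (l : Fin (n + 1) × Fin b) : Om F n →ₗ[F] F where
  toFun ω := ω.1 * X l.1 l.2 + ω.2 l.1
  map_add' ω ω' := by simp only [Prod.fst_add, Prod.snd_add, Pi.add_apply]; ring
  map_smul' c ω := by simp only [Prod.smul_fst, Prod.smul_snd, Pi.smul_apply, smul_eq_mul, RingHom.id_apply]; ring

def val (X : Fin (n + 1) → Fin b → F) (ω : Om F n) : Lab F n b → F := Sum.elim id (fun l => el X l ω)

def phi1 (u : Fin (n + 1) → F) (X : Fin (n + 1) → Fin b → F) (J : Fin (n + 1) → Fin b) :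
    Om F n →ₗ[F] F := ∑ i, u i • el X (i, J i)

def phi2 (v : Fin (n + 1) → F) (X : Fin (n + 1) → Fin b → F) (y : Fin (n + 1) → Lab F n b) :
    Om F n →ₗ[F] F := ∑ k, v k • Sum.elim (fun _ => 0) (el X) (y k)

omit [Fintype F] [DecidableEq F] in
theorem phi1_apply (u : Fin (n + 1) → F) (X : Fin (n + 1) → Fin b → F) (J : Fin (n + 1) → Fin b)
    (ω : Om F n) : phi1 u X J ω = ∑ i, u i * (ω.1 * X i (J i) + ω.2 i) := by
  simp [phi1, LinearMap.sum_apply, el]

omit [Fintype F] [DecidableEq F] in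
theorem sum_val (v : Fin (n + 1) → F) (X : Fin (n + 1) → Fin b → F) (y : Fin (n + 1) → Lab F n b)
    (ω : Om F n) : ∑ k, v k * val X ω (y k) =
      ∑ k, v k * Sum.elim id (fun _ => 0) (y k) + phi2 v X y ω := by
  rw [phi2, LinearMap.sum_apply, ← sum_add_distrib]
  apply sum_congr rfl
  intro k _
  cases y k <;> simp [val]

def Inv (v : Fin (n + 1) → F) (C R : Finset F) : Prop :=
  ∀ y : Fin (n + 1) → F, (∀ k, y k ∈ R) → ∑ k, v k * y k ∉ C

theorem event_count (u v : Fin (n + 1) → F) (hu : ∀ i, u i ≠ 0)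
    (hnp : ∀ (σ : Equiv.Perm (Fin (n + 1))) (μ : F), μ ≠ 0 → ¬ ∀ i, v (σ i) = μ * u i)
    (X : Fin (n + 1) → Fin b → F) (C R : Finset F) (h0 : 0 ∈ R) (hI : Inv v C R)
    (J : Fin (n + 1) → Fin b) (y : Fin (n + 1) → Lab F n b) (hy : ∀ k, y k ∈ R.disjSum univ)
    (t c : F) (hc : c ∈ C) :
    (univ.filter (fun ω => phi1 u X J ω = t ∧ ∑ k, v k * val X ω (y k) = c)).card *
      Fintype.card F ^ 2 ≤ Fintype.card (Om F n) := by
  have hsingle : ∀ i, phi1 u X J (0, Pi.single i 1) = u i := by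
    intro i
    rw [phi1_apply, sum_eq_single i] <;> simp +contextual [Pi.single_apply]
  by_cases hA : ∃ ω2, phi1 u X J ω2 = 0 ∧ phi2 v X y ω2 ≠ 0
  · obtain ⟨ω2, h2, h3⟩ := hA
    have := pair_count (phi1 u X J) (phi2 v X y) (0, Pi.single 0 1) ω2 (by rw [hsingle]; exact hu 0) h2 h3
      t (c - ∑ k, v k * Sum.elim id (fun _ => 0) (y k))
    convert this using 3
    ext ω
    simp only [mem_filter]
    rw [sum_val, eq_sub_iff_add_eq']
  push Not at hA
  obtain ⟨μ, hμ⟩ : ∃ μ, ∀ ω, phi2 v X y ω = μ * phi1 u X J ω := by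
    refine ⟨phi2 v X y (0, Pi.single 0 1) / u 0, fun ω => ?_⟩
    have := hA (ω - (phi1 u X J ω / u 0) • ((0, Pi.single 0 1) : Om F n)) (by
      rw [map_sub, map_smul, hsingle, smul_eq_mul, div_mul_cancel₀ _ (hu 0), sub_self])
    rw [map_sub, map_smul, smul_eq_mul, sub_eq_zero] at this
    rw [this]
    ring
  by_cases hμ0 : μ = 0
  · rw [filter_false_of_mem]
    · simp
    rintro ω - ⟨-, h⟩
    rw [sum_val, hμ, hμ0, zero_mul, add_zero] at h
    refine hI (fun k => Sum.elim id (fun _ => 0) (y k)) (fun k => ?_) (h ▸ hc)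
    have := hy k
    revert this
    cases y k <;> simp [h0]
  exfalso
  have hw : ∀ i, ∑ k, v k * Sum.elim (fun _ => 0) (fun l => if l.1 = i then 1 else 0) (y k) = μ * u i := by
    intro i
    rw [← hsingle i, ← hμ, phi2, LinearMap.sum_apply]
    apply sum_congr rfl
    intro k _
    cases y k <;> simp [el, Pi.single_apply]
  have hex : ∀ i, ∃ k j, y k = Sum.inr (i, j) := by
    intro i
    by_contra hcon
    push Not at hcon
    refine mul_ne_zero hμ0 (hu i) ?_
    rw [← hw i]
    apply sum_eq_zero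
    intro k _
    have := hcon k
    revert this
    rcases y k with a | ⟨i', j⟩
    · simp
    · intro this
      have : i' ≠ i := by rintro rfl; exact this j rfl
      simp [this]
  choose σ j hσ using hex
  have hinj : Function.Injective σ := by
    intro i i' h
    have := hσ i
    rw [h, hσ i'] at this
    simpa using (congrArg (Sum.elim (fun _ => i) Prod.fst) this).symm
  have hbij := Finite.injective_iff_bijective.mp hinj
  refine hnp (Equiv.ofBijective σ hbij) μ hμ0 fun i => ?_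
  rw [← hw i, sum_eq_single (σ i)]
  · simp [hσ i]
  · intro k _ hk
    obtain ⟨i', rfl⟩ := hbij.2 k
    have : i' ≠ i := by rintro rfl; exact hk rfl
    simp [hσ i', this]
  · simp

theorem step (u v : Fin (n + 1) → F) (hu : ∀ i, u i ≠ 0)
    (hnp : ∀ (σ : Equiv.Perm (Fin (n + 1))) (μ : F), μ ≠ 0 → ¬ ∀ i, v (σ i) = μ * u i)
    (X : Fin (n + 1) → Fin b → F) (hX : ∀ t, ∃ J : Fin (n + 1) → Fin b, ∑ i, u i * X i (J i) = t)
    (C R : Finset F) (h0 : 0 ∈ R) (hI : Inv v C R) (U : Finset F) :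
    ∃ R' U' : Finset F, R ⊆ R' ∧ R'.card ≤ R.card + (n + 1) * b ∧ Inv v C R' ∧
      (∀ t ∈ U, t ∉ U' → ∃ a : Fin (n + 1) → F, (∀ i, a i ∈ R') ∧ ∑ i, u i * a i = t) ∧
      U'.card * Fintype.card F ^ 2 ≤ U.card * (Fintype.card F +
        b ^ (n + 1) * ((n + 1) * ((n + 1) * ((R.card + (n + 1) * b) ^ n * C.card)))) := by
  classical
  let Dang : Om F n → Fin (n + 1) × Fin b → Prop := fun ω l =>
    ∃ k : Fin (n + 1), ∃ y' ∈ Fintype.piFinset (fun _ : Fin n => R.disjSum (univ : Finset (Fin (n + 1) × Fin b))),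
      ∃ c ∈ C, ∑ k', v k' * val X ω (k.insertNth (α := fun _ => Lab F n b) (Sum.inr l) y' k') = c
  let Bad : Om F n → F → Prop := fun ω t =>
    ω.1 = 0 ∨ ∃ J i, phi1 u X J ω = t ∧ Dang ω (i, J i)
  obtain ⟨N, hN⟩ : ∃ N, N = b ^ (n + 1) * ((n + 1) * ((n + 1) * ((R.card + (n + 1) * b) ^ n * C.card))) :=
    ⟨_, rfl⟩
  have hcount : ∀ t, (univ.filter (fun ω => Bad ω t)).card * Fintype.card F ^ 2 ≤
      Fintype.card (Om F n) * (Fintype.card F + N) := by
    intro t
    let S := (univ : Finset (Fin (n + 1) → Fin b)) ×ˢ (univ : Finset (Fin (n + 1))) ×ˢ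
      (univ : Finset (Fin (n + 1))) ×ˢ
      (Fintype.piFinset (fun _ : Fin n => R.disjSum (univ : Finset (Fin (n + 1) × Fin b)))) ×ˢ C
    have hS : S.card = N := by
      simp [S, hN, card_product, Fintype.card_piFinset, card_disjSum]
    have hsub : univ.filter (fun ω => Bad ω t) ⊆ univ.filter (fun ω : Om F n => ω.1 = 0) ∪
        S.biUnion (fun z => univ.filter (fun ω => phi1 u X z.1 ω = t ∧
          ∑ k', v k' * val X ω (z.2.2.1.insertNth (α := fun _ => Lab F n b)
            (Sum.inr (z.2.1, z.1 z.2.1)) z.2.2.2.1 k') = z.2.2.2.2)) := by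
      intro ω hω
      rcases (mem_filter.mp hω).2 with h | ⟨J, i, h1, k, y', hy', c, hc, h2⟩
      · exact mem_union_left _ (mem_filter.mpr ⟨mem_univ _, h⟩)
      · refine mem_union_right _ (mem_biUnion.mpr ⟨(J, i, k, y', c), ?_, mem_filter.mpr ⟨mem_univ _, h1, h2⟩⟩)
        simp only [S, mem_product, mem_univ, true_and]
        exact ⟨hy', hc⟩
    have h1 : (univ.filter (fun ω : Om F n => ω.1 = 0)).card * Fintype.card F = Fintype.card (Om F n) := by
      have : univ.filter (fun ω : Om F n => ω.1 = 0) = ({0} : Finset F) ×ˢ univ := by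
        ext ω
        simp [Prod.ext_iff, eq_comm]
      rw [this, card_product, card_singleton, one_mul, card_univ, Fintype.card_prod, mul_comm]
    have h2 := (card_le_card hsub).trans (card_union_le _ _)
    have h3 := Nat.mul_le_mul_right (Fintype.card F ^ 2) (h2.trans (Nat.add_le_add_left card_biUnion_le _))
    refine h3.trans ?_
    rw [add_mul, mul_add, sum_mul]
    apply Nat.add_le_add
    · rw [sq, ← mul_assoc, h1]
    · rw [mul_comm, ← hS, ← smul_eq_mul]
      apply sum_le_card_nsmul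
      rintro ⟨J, i, k, y', c⟩ hz
      simp only [S, mem_product, mem_univ, true_and, Fintype.mem_piFinset] at hz
      apply event_count u v hu hnp X C R h0 hI J _ _ t c hz.2
      intro k'
      refine Fin.succAboveCases k ?_ (fun j => ?_) k'
      · simp
      · simpa using hz.1 j
  have hsum : ∑ ω : Om F n, (U.filter (Bad ω)).card * Fintype.card F ^ 2 ≤
      ∑ _ω : Om F n, U.card * (Fintype.card F + N) := by
    rw [← sum_mul]
    have : ∑ ω : Om F n, (U.filter (Bad ω)).card = ∑ t ∈ U, (univ.filter (fun ω => Bad ω t)).card := by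
      simp only [card_filter]
      exact sum_comm
    rw [this, sum_mul, sum_const, card_univ, smul_eq_mul]
    refine (sum_le_card_nsmul _ _ _ (fun t _ => hcount t)).trans (le_of_eq ?_)
    rw [smul_eq_mul]
    ring
  obtain ⟨ω, -, hω⟩ := exists_le_of_sum_le univ_nonempty hsum
  refine ⟨R ∪ (univ.filter (fun l => ¬ Dang ω l)).image (fun l => el X l ω), U.filter (Bad ω),
    subset_union_left, ?_, ?_, ?_, hN ▸ hω⟩
  · refine (card_union_le _ _).trans (Nat.add_le_add_left (card_image_le.trans ?_) _)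
    refine (card_filter_le _ _).trans ?_
    simp
  · intro y hy hc
    have : ∀ k, ∃ z : Lab F n b, z ∈ R.disjSum univ ∧ val X ω z = y k ∧
        (∀ l, z = Sum.inr l → ¬ Dang ω l) := by
      intro k
      rcases mem_union.mp (hy k) with h | h
      · exact ⟨Sum.inl (y k), by simpa using h, rfl, by simp⟩
      · obtain ⟨l, hl, hl'⟩ := mem_image.mp h
        refine ⟨Sum.inr l, by simp, hl', ?_⟩
        rintro l' h'
        rw [← Sum.inr.inj h']
        exact (mem_filter.mp hl).2
    choose z hz1 hz2 hz3 using this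
    by_cases hall : ∀ k, ∃ a, z k = Sum.inl a
    · refine hI y (fun k => ?_) hc
      obtain ⟨a, ha⟩ := hall k
      have h1 := hz1 k
      have h2 := hz2 k
      rw [ha] at h1 h2
      rw [← h2]
      simpa [val] using h1
    · push Not at hall
      obtain ⟨k, hk⟩ := hall
      obtain ⟨l, hl⟩ : ∃ l, z k = Sum.inr l := by
        revert hk
        cases z k <;> simp
      refine hz3 k l hl ⟨k, k.removeNth z, Fintype.mem_piFinset.mpr (fun j => hz1 _), _, hc, ?_⟩
      rw [← hl, Fin.insertNth_self_removeNth]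
      simp only [hz2]
  · intro t ht ht'
    have hb : ¬ Bad ω t := fun h => ht' (mem_filter.mpr ⟨ht, h⟩)
    simp only [Bad, not_or, not_exists, not_and] at hb
    obtain ⟨J, hJ⟩ := hX ((t - ∑ i, u i * ω.2 i) / ω.1)
    have h1 : phi1 u X J ω = t := by
      rw [phi1_apply]
      have : ∑ i, u i * (ω.1 * X i (J i) + ω.2 i) = ω.1 * ∑ i, u i * X i (J i) + ∑ i, u i * ω.2 i := by
        rw [mul_sum, ← sum_add_distrib]
        exact sum_congr rfl fun i _ => by ring
      rw [this, hJ, mul_div_cancel₀ _ hb.1]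
      ring
    refine ⟨fun i => el X (i, J i) ω, fun i => mem_union_right _ (mem_image.mpr
      ⟨(i, J i), mem_filter.mpr ⟨mem_univ _, hb.2 J i h1⟩, rfl⟩), ?_⟩
    rw [← h1, phi1_apply]
    rfl

theorem iterate (u v : Fin (n + 1) → F) (hu : ∀ i, u i ≠ 0)
    (hnp : ∀ (σ : Equiv.Perm (Fin (n + 1))) (μ : F), μ ≠ 0 → ¬ ∀ i, v (σ i) = μ * u i)
    (X : Fin (n + 1) → Fin b → F) (hX : ∀ t, ∃ J : Fin (n + 1) → Fin b, ∑ i, u i * X i (J i) = t)
    (C : Finset F) (hC : 0 ∉ C) (κ L : ℕ) (hκ : b ^ (n + 1) ≤ κ * Fintype.card F) :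
    ∀ j, j ≤ L → ∃ R U : Finset F, 0 ∈ R ∧ R.card ≤ 1 + j * ((n + 1) * b) ∧ Inv v C R ∧
      (∀ t, t ∉ U → ∃ a : Fin (n + 1) → F, (∀ i, a i ∈ R) ∧ ∑ i, u i * a i = t) ∧
      U.card * Fintype.card F ^ j ≤ Fintype.card F *
        (1 + κ * ((n + 1) * ((n + 1) * ((1 + L * ((n + 1) * b)) ^ n * C.card)))) ^ j := by
  intro j
  induction j with
  | zero =>
    intro _
    refine ⟨{0}, univ, by simp, by simp, ?_, by simp, by simp⟩
    intro y hy
    simp only [mem_singleton] at hy
    simpa [hy] using hC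
  | succ j ih =>
    intro hj
    obtain ⟨R, U, h0, hR, hI, hcov, hU⟩ := ih (by omega)
    obtain ⟨R', U', hRR, hR', hI', hcov', hU'⟩ := step u v hu hnp X hX C R h0 hI U
    refine ⟨R', U', hRR h0, by rw [add_mul j, one_mul]; omega, hI', fun t ht => ?_, ?_⟩
    · by_cases htU : t ∈ U
      · exact hcov' t htU ht
      · obtain ⟨a, ha, ha'⟩ := hcov t htU
        exact ⟨a, fun i => hRR (ha i), ha'⟩
    · obtain ⟨θ, hθ⟩ : ∃ θ, θ = 1 + κ * ((n + 1) * ((n + 1) * ((1 + L * ((n + 1) * b)) ^ n * C.card))) :=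
        ⟨_, rfl⟩
      rw [← hθ] at hU ⊢
      have h1 : R.card + (n + 1) * b ≤ 1 + L * ((n + 1) * b) := by
        have : (j + 1) * ((n + 1) * b) ≤ L * ((n + 1) * b) := Nat.mul_le_mul_right _ hj
        rw [add_mul j, one_mul] at this
        omega
      have h2 : Fintype.card F + b ^ (n + 1) * ((n + 1) * ((n + 1) * ((R.card + (n + 1) * b) ^ n * C.card)))
          ≤ Fintype.card F * θ := by
        rw [hθ, mul_add, mul_one, ← mul_assoc (Fintype.card F), mul_comm (Fintype.card F) κ]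
        gcongr
      have h3 : U'.card * Fintype.card F ≤ U.card * θ := by
        have h4 := hU'.trans (Nat.mul_le_mul_left _ h2)
        have h5 : U'.card * Fintype.card F * Fintype.card F ≤ U.card * θ * Fintype.card F := by
          calc _ = U'.card * Fintype.card F ^ 2 := by ring
            _ ≤ _ := h4
            _ = _ := by ring
        exact Nat.le_of_mul_le_mul_right h5 Fintype.card_pos
      calc U'.card * Fintype.card F ^ (j + 1) = U'.card * Fintype.card F * Fintype.card F ^ j := by ring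
        _ ≤ U.card * θ * Fintype.card F ^ j := Nat.mul_le_mul_right _ h3
        _ = U.card * Fintype.card F ^ j * θ := by ring
        _ ≤ Fintype.card F * θ ^ j * θ := Nat.mul_le_mul_right _ hU
        _ = _ := by ring

end step

end Pool.Agent.H.MP_07add5_co
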