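import Mathlib
import Pool.Agent.H.MP_07add5_co.Modp

set_option autoImplicit false

namespace Pool.Agent.H.MP_07add5_co
open Finset

theorem nonprop {n : ℕ} (u v : Fin (n + 1) → ℤ) (hu : ∀ i, u i ≠ 0)
    (gu : Finset.univ.gcd u = 1) (gv : Finset.univ.gcd v = 1) (σ : Equiv.Perm (Fin (n + 1)))
    (h : ∀ i j, v (σ i) * u j = v (σ j) * u i) :
    (∀ i, v i = u (σ.symm i)) ∨ (∀ i, v i = -u (σ.symm i)) := by
  have h0 : u 0 ∣ v (σ 0) := by
    have : u 0 ∣ Finset.univ.gcd (fun j => v (σ 0) * u j) :=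
      Finset.dvd_gcd fun j _ => by rw [h 0 j]; exact Dvd.intro_left _ rfl
    rw [Finset.gcd_mul_left, gu, mul_one] at this
    exact dvd_normalize_iff.mp this
  obtain ⟨c, hc⟩ := h0
  have h1 : ∀ k, v k = c * u (σ.symm k) := by
    intro k
    have := h 0 (σ.symm k)
    rw [Equiv.apply_symm_apply, hc] at this
    apply mul_right_cancel₀ (hu 0)
    rw [← this]
    ring
  have h2 : c ∣ 1 := by
    rw [← gv]
    exact Finset.dvd_gcd fun k _ => by rw [h1 k]; exact Dvd.intro _ rfl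
  rcases Int.isUnit_iff.mp (isUnit_of_dvd_one h2) with rfl | rfl
  · left; simpa using h1
  · right; simpa using h1

theorem modp {n : ℕ} (u v : Fin (n + 1) → ℤ) (hu : ∀ i, u i ≠ 0)
    (gu : Finset.univ.gcd u = 1) (gv : Finset.univ.gcd v = 1)
    (hσ : ¬ ∃ σ : Equiv.Perm (Fin (n + 1)), (∀ i, v i = u (σ i)) ∨ (∀ i, v i = -u (σ i))) (W : ℕ) :
    ∃ p : ℕ, W < p ∧ ∃ A : Finset ℤ, (∀ a ∈ A, 0 ≤ a ∧ a < p) ∧
      (∀ t : ℤ, ∃ a : Fin (n + 1) → ℤ, (∀ i, a i ∈ A) ∧ (p : ℤ) ∣ ∑ i, u i * a i - t) ∧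
      ∀ a : Fin (n + 1) → ℤ, (∀ i, a i ∈ A) → ∀ c : ℤ, 1 ≤ c → c ≤ W → ¬ (p : ℤ) ∣ ∑ i, v i * a i - c := by
  classical
  obtain ⟨M, hM⟩ : ∃ M : ℕ, (∀ i, |u i| ≤ M) ∧ ∀ i, |v i| ≤ M := by
    refine ⟨∑ i, (u i).natAbs + ∑ i, (v i).natAbs, fun i => ?_, fun i => ?_⟩
    · have := single_le_sum (f := fun i => (u i).natAbs) (fun _ _ => Nat.zero_le _) (mem_univ i)
      rw [Int.abs_eq_natAbs]
      exact_mod_cast this.trans (Nat.le_add_right _ _)
    · have := single_le_sum (f := fun i => (v i).natAbs) (fun _ _ => Nat.zero_le _) (mem_univ i)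
      rw [Int.abs_eq_natAbs]
      exact_mod_cast this.trans (Nat.le_add_left _ _)
  obtain ⟨K, hK⟩ : ∃ K, K = 1 + 2 ^ (n + 1) * ((n + 1) * ((n + 1) * ((1 + (n + 2) * (n + 1)) ^ n * W))) :=
    ⟨_, rfl⟩
  obtain ⟨c, hc⟩ : ∃ c, c = K ^ (n + 2) * 2 ^ (n * (n + 2)) + W + 2 * M * M + M + 1 := ⟨_, rfl⟩
  have hc0 : 0 < c := by omega
  obtain ⟨p, hp, hp1, hp2⟩ := Nat.exists_prime_lt_and_le_two_mul (c ^ (n + 1)) (pow_ne_zero _ hc0.ne')
  have hcp : c < p := lt_of_le_of_lt (Nat.le_self_pow (by omega) c) hp1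
  have : Fact p.Prime := ⟨hp⟩
  have hsmall : ∀ x : ℤ, |x| < p → (x : ZMod p) = 0 → x = 0 := by
    intro x hx h
    exact Int.eq_zero_of_abs_lt_dvd ((ZMod.intCast_zmod_eq_zero_iff_dvd x p).mp h) hx
  have hu' : ∀ i, ((u i : ℤ) : ZMod p) ≠ 0 := by
    intro i h
    refine hu i (hsmall _ ?_ h)
    have := hM.1 i
    have h2 : M < p := by omega
    have h3 : (M : ℤ) < p := by exact_mod_cast h2
    omega
  have hnp : ∀ (σ : Equiv.Perm (Fin (n + 1))) (μ : ZMod p), μ ≠ 0 →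
      ¬ ∀ i, ((v (σ i) : ℤ) : ZMod p) = μ * ((u i : ℤ) : ZMod p) := by
    intro σ μ _ h
    refine hσ ⟨σ.symm, nonprop u v hu gu gv σ fun i j => ?_⟩
    rw [← sub_eq_zero]
    apply hsmall
    · have h1 : |v (σ i) * u j| ≤ M * M := by
        rw [abs_mul]
        exact mul_le_mul (hM.2 _) (hM.1 _) (abs_nonneg _) (by positivity)
      have h2 : |v (σ j) * u i| ≤ M * M := by
        rw [abs_mul]
        exact mul_le_mul (hM.2 _) (hM.1 _) (abs_nonneg _) (by positivity)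
      have h3 : 2 * M * M < p := by omega
      have h4 : (2 * M * M : ℤ) < p := by exact_mod_cast h3
      have := abs_sub (v (σ i) * u j) (v (σ j) * u i)
      linarith
    · push_cast
      rw [h i, h j]
      ring
  have hb1 : p ≤ (2 * c) ^ (n + 1) := by
    rw [mul_pow]
    refine hp2.trans (Nat.mul_le_mul_right _ ?_)
    exact Nat.le_self_pow (by omega) 2
  have hX : ∀ t : ZMod p, ∃ J : Fin (n + 1) → Fin (2 * c),
      ∑ i, ((u i : ℤ) : ZMod p) * (((u i : ℤ) : ZMod p)⁻¹ * (((J i : ℕ) * (2 * c) ^ (i : ℕ) : ℕ) : ZMod p)) = t := by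
    intro t
    refine ⟨finFunctionFinEquiv.symm ⟨t.val, (ZMod.val_lt t).trans_le hb1⟩, ?_⟩
    simp only [mul_inv_cancel_left₀ (hu' _)]
    rw [← Nat.cast_sum, ← finFunctionFinEquiv_apply, Equiv.apply_symm_apply]
    simp
  have hC : (0 : ZMod p) ∉ (Icc 1 W).image (fun x : ℕ => (x : ZMod p)) := by
    intro h
    obtain ⟨x, hx, hx'⟩ := mem_image.mp h
    rw [mem_Icc] at hx
    have := Nat.le_of_dvd (by omega) ((ZMod.natCast_eq_zero_iff x p).mp hx')
    omega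
  have hκ : (2 * c) ^ (n + 1) ≤ 2 ^ (n + 1) * Fintype.card (ZMod p) := by
    rw [mul_pow, ZMod.card]
    exact Nat.mul_le_mul_left _ hp1.le
  obtain ⟨R, U, -, -, hI, hcov, hU⟩ := iterate (fun i => ((u i : ℤ) : ZMod p)) (fun i => ((v i : ℤ) : ZMod p))
    hu' hnp (fun i (j : Fin (2 * c)) => ((u i : ℤ) : ZMod p)⁻¹ * (((j : ℕ) * (2 * c) ^ (i : ℕ) : ℕ) : ZMod p)) hX
    _ hC (2 ^ (n + 1)) (n + 2) hκ (n + 2) le_rfl
  have hU0 : U = ∅ := by
    by_contra hne
    have h1 : 1 ≤ U.card := card_pos.mpr (nonempty_iff_ne_empty.mpr hne)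
    rw [ZMod.card] at hU
    have h2 : ((Icc 1 W).image (fun x : ℕ => (x : ZMod p))).card ≤ W := card_image_le.trans (by simp)
    have h3 : 1 + 2 ^ (n + 1) * ((n + 1) * ((n + 1) * ((1 + (n + 2) * ((n + 1) * (2 * c))) ^ n *
        ((Icc 1 W).image (fun x : ℕ => (x : ZMod p))).card))) ≤ K * (2 * c) ^ n := by
      have h4 : 1 + (n + 2) * ((n + 1) * (2 * c)) ≤ (1 + (n + 2) * (n + 1)) * (2 * c) := by
        rw [add_mul 1, mul_assoc (n + 2)]
        omega
      have h5 : 1 ≤ (2 * c) ^ n := Nat.one_le_pow _ _ (by omega)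
      calc _ ≤ (2 * c) ^ n + 2 ^ (n + 1) * ((n + 1) * ((n + 1) *
            (((1 + (n + 2) * (n + 1)) * (2 * c)) ^ n * W))) := by gcongr
        _ = _ := by rw [hK, mul_pow (1 + (n + 2) * (n + 1))]; generalize (2 * c) ^ n = z; ring
    have h4 : p ^ (n + 2) ≤ p * (K * (2 * c) ^ n) ^ (n + 2) :=
      calc _ ≤ U.card * p ^ (n + 2) := Nat.le_mul_of_pos_left _ h1
        _ ≤ _ := hU
        _ ≤ _ := by gcongr
    rw [pow_succ' p] at h4
    have h5 := Nat.le_of_mul_le_mul_left h4 hp.pos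
    have h6 : (c ^ (n + 1)) ^ (n + 1) < p ^ (n + 1) := Nat.pow_lt_pow_left hp1 (by omega)
    have h7 : (K * (2 * c) ^ n) ^ (n + 2) ≤ (c ^ (n + 1)) ^ (n + 1) :=
      calc _ = K ^ (n + 2) * 2 ^ (n * (n + 2)) * c ^ (n * (n + 2)) := by
            rw [mul_pow, ← pow_mul, mul_pow, mul_assoc]
        _ ≤ c * c ^ (n * (n + 2)) := Nat.mul_le_mul_right _ (by omega)
        _ = _ := by rw [← pow_mul, ← pow_succ']; congr 1; ring
    omega
  refine ⟨p, by omega, R.image (fun x => (x.val : ℤ)), ?_, ?_, ?_⟩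
  · intro a ha
    obtain ⟨x, -, rfl⟩ := mem_image.mp ha
    exact ⟨by positivity, by exact_mod_cast ZMod.val_lt x⟩
  · intro t
    obtain ⟨a, ha, ha'⟩ := hcov (t : ZMod p) (by simp [hU0])
    refine ⟨fun i => (a i).val, fun i => mem_image_of_mem _ (ha i), ?_⟩
    rw [← ZMod.intCast_zmod_eq_zero_iff_dvd]
    push_cast
    simp only [ZMod.natCast_val, ZMod.cast_id', id_eq]
    rw [ha', sub_self]
  · intro a ha x hx1 hx2 hd
    have : ∀ i, ∃ y ∈ R, (y.val : ℤ) = a i := fun i => mem_image.mp (ha i)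
    choose y hy hy' using this
    refine hI y hy (mem_image.mpr ⟨x.toNat, mem_Icc.mpr ⟨by omega, by omega⟩, ?_⟩)
    rw [← ZMod.intCast_zmod_eq_zero_iff_dvd] at hd
    simp only [← hy'] at hd
    push_cast at hd
    simp only [ZMod.natCast_val, ZMod.cast_id', id_eq] at hd
    rw [sub_eq_zero] at hd
    rw [hd, ← Int.cast_natCast, Int.toNat_of_nonneg (by omega)]

def tower (p : ℕ) (A : Finset ℤ) : ℕ → Finset ℤ
  | 0 => {0}
  | k + 1 => image₂ (fun r a => r + p * a) A (tower p A k)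

theorem lower {m : ℕ} (u : Fin m → ℤ) (p : ℕ) (A : Finset ℤ)
    (h : ∀ t : ℤ, ∃ a : Fin m → ℤ, (∀ i, a i ∈ A) ∧ (p : ℤ) ∣ ∑ i, u i * a i - t) (k : ℕ) :
    ∀ t : ℤ, ∃ a : Fin m → ℤ, (∀ i, a i ∈ tower p A k) ∧ (p : ℤ) ^ k ∣ ∑ i, u i * a i - t := by
  induction k with
  | zero => exact fun t => ⟨0, by simp [tower], by simp⟩
  | succ k ih =>
    intro t
    obtain ⟨r, hr, s, hs⟩ := h t
    obtain ⟨a, ha, w, hw⟩ := ih (-s)
    refine ⟨fun i => r i + p * a i, fun i => mem_image₂_of_mem (hr i) (ha i), w, ?_⟩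
    have : ∑ i, u i * (r i + p * a i) = ∑ i, u i * r i + p * ∑ i, u i * a i := by
      rw [mul_sum, ← sum_add_distrib]
      exact sum_congr rfl fun i _ => by ring
    rw [this]
    linear_combination hs + p * hw

theorem upper {m : ℕ} (v : Fin m → ℤ) (p V : ℕ) (hV : ∑ i, |v i| = V) (hp : 2 * V + 1 < p) (A : Finset ℤ)
    (hA : ∀ a ∈ A, 0 ≤ a ∧ a < p)
    (h : ∀ a : Fin m → ℤ, (∀ i, a i ∈ A) → ∀ c : ℤ, 1 ≤ c → c ≤ (2 * V + 1 : ℕ) → ¬ (p : ℤ) ∣ ∑ i, v i * a i - c)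
    (k : ℕ) : ∃ T : Finset ℤ, T.card ≤ (2 * V + 1) * (p - 1) ^ k ∧
      ∀ a : Fin m → ℤ, (∀ i, a i ∈ tower p A k) → ∀ d : ℤ, |d| ≤ V → ∑ i, v i * a i + d ∈ T := by
  induction k with
  | zero =>
    refine ⟨Icc (-V : ℤ) V, by simp; omega, fun a ha d hd => ?_⟩
    simp only [tower, mem_singleton] at ha
    simpa [ha, abs_le] using hd
  | succ k ih =>
    obtain ⟨T, hT, hT'⟩ := ih
    refine ⟨image₂ (fun x y => x + p * y) ((Ico (0 : ℤ) p).erase (V + 1)) T, ?_, fun a ha d hd => ?_⟩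
    · refine (card_image₂_le _ _ _).trans ?_
      rw [card_erase_of_mem (mem_Ico.mpr ⟨by omega, by omega⟩)]
      simp only [Int.card_Ico, sub_zero, Int.toNat_natCast]
      calc _ ≤ (p - 1) * ((2 * V + 1) * (p - 1) ^ k) := Nat.mul_le_mul_left _ hT
        _ = _ := by ring
    · have : ∀ i, ∃ r ∈ A, ∃ b ∈ tower p A k, r + p * b = a i := fun i => mem_image₂.mp (ha i)
      choose r hr b hb hrb using this
      have e : ∑ i, v i * a i = ∑ i, v i * r i + p * ∑ i, v i * b i := by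
        rw [mul_sum, ← sum_add_distrib]
        exact sum_congr rfl fun i _ => by rw [← hrb i]; ring
      have hs : |∑ i, v i * r i| ≤ V * (p - 1) := by
        refine (abs_sum_le_sum_abs _ _).trans ?_
        rw [← hV, sum_mul]
        refine sum_le_sum fun i _ => ?_
        rw [abs_mul, abs_of_nonneg (hA _ (hr i)).1]
        exact mul_le_mul_of_nonneg_left (by have := (hA _ (hr i)).2; omega) (abs_nonneg _)
      obtain ⟨s, hs'⟩ : ∃ s, s = ∑ i, v i * r i := ⟨_, rfl⟩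
      have hp0 : (0 : ℤ) < p := by omega
      have hdiv := Int.emod_add_mul_ediv (s + d) p
      have h1 := Int.emod_nonneg (s + d) hp0.ne'
      have h2 := Int.emod_lt_of_pos (s + d) hp0
      rw [← hs', abs_le] at hs
      rw [abs_le] at hd
      refine mem_image₂.mpr ⟨(s + d) % p, mem_erase.mpr ⟨fun h3 => ?_, mem_Ico.mpr ⟨h1, h2⟩⟩, _,
        hT' b hb ((s + d) / p) (abs_le.mpr ⟨?_, ?_⟩), ?_⟩
      · refine h r hr (V + 1 - d) (by omega) (by omega) ⟨(s + d) / p, ?_⟩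
        rw [← hs']
        linarith
      · by_contra h3
        have : (s + d) / p ≤ -V - 1 := by omega
        nlinarith
      · by_contra h3
        have : V + 1 ≤ (s + d) / p := by omega
        nlinarith
      · rw [e, ← hs']
        linarith

theorem main {n : ℕ} (u v : Fin (n + 1) → ℤ) (hu : ∀ i, u i ≠ 0)
    (gu : Finset.univ.gcd u = 1) (gv : Finset.univ.gcd v = 1)
    (hσ : ¬ ∃ σ : Equiv.Perm (Fin (n + 1)), (∀ i, v i = u (σ i)) ∨ (∀ i, v i = -u (σ i))) :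
    ∃ A : Finset ℤ,
        ((Fintype.piFinset fun _ : Fin (n + 1) => A).image
            (fun a : Fin (n + 1) → ℤ => ∑ i, v i * a i)).card <
        ((Fintype.piFinset fun _ : Fin (n + 1) => A).image
            (fun a : Fin (n + 1) → ℤ => ∑ i, u i * a i)).card := by
  obtain ⟨V, hV⟩ : ∃ V : ℕ, ∑ i, |v i| = V :=
    ⟨_, (Int.toNat_of_nonneg (sum_nonneg fun i _ => abs_nonneg _)).symm⟩
  obtain ⟨p, hp, A, hA, h1, h2⟩ := modp u v hu gu gv hσ (2 * V + 1)
  have hp0 : (0 : ℝ) < p := by exact_mod_cast (by omega : 0 < p)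
  obtain ⟨k, hk⟩ := exists_pow_lt_of_lt_one (x := 1 / (2 * V + 1 : ℝ)) (y := ((p - 1 : ℕ) : ℝ) / p)
    (by positivity) (by rw [div_lt_one hp0]; exact_mod_cast (by omega : p - 1 < p))
  have hk' : (2 * V + 1) * (p - 1) ^ k < p ^ k := by
    rw [div_pow, div_lt_div_iff₀ (by positivity) (by positivity), one_mul, mul_comm] at hk
    exact_mod_cast hk
  obtain ⟨T, hT, hT'⟩ := upper v p V hV hp A hA h2 k
  refine ⟨tower p A k, lt_of_le_of_lt (card_le_card (t := T) ?_) (lt_of_le_of_lt hT (hk'.trans_le ?_))⟩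
  · intro z hz
    obtain ⟨a, ha, rfl⟩ := mem_image.mp hz
    simpa using hT' a (Fintype.mem_piFinset.mp ha) 0 (by simp)
  · choose a ha ha' using lower u p A h1 k
    rw [← card_range (p ^ k)]
    apply card_le_card_of_injOn (fun t : ℕ => ∑ i, u i * a t i)
    · intro t _
      exact mem_coe.mpr (mem_image_of_mem _ (Fintype.mem_piFinset.mpr (ha t)))
    · intro t ht t' ht' e
      simp only [coe_range, Set.mem_Iio] at ht ht' e
      have := dvd_sub (ha' t) (ha' t')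
      rw [e] at this
      have h3 : ((p ^ k : ℕ) : ℤ) ∣ (t' : ℤ) - t := by
        push_cast
        rwa [sub_sub_sub_cancel_left] at this
      have := Int.eq_zero_of_abs_lt_dvd h3 (by rw [abs_lt]; constructor <;> omega)
      omega

end Pool.Agent.H.MP_07add5_co
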